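import Mathlib

/-!
Random signs: for unimodular numbers `z s t` there are signs such that `|∑_s ± z s t|² ≥ |S| / 2` for at
least one twelfth of the `t`.
-/

set_option autoImplicit false

namespace Pool.Agent.Q261.DP

open Finset

variable {ι κ : Type*} [DecidableEq ι]

/-- the sign function of a set -/
def sg (u : Finset ι) (s : ι) : ℝ := if s ∈ u then 1 else -1

lemma sg_eq (u : Finset ι) (s : ι) : sg u s = 1 ∨ sg u s = -1 := by
  unfold sg
  split_ifs
  · exact Or.inl rfl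
  · exact Or.inr rfl

/-- signed sums -/
noncomputable def sum_sg (S u : Finset ι) (z : ι → ℂ) : ℂ := ∑ s ∈ S, (sg u s : ℂ) * z s

lemma sum_sg_insert (S u : Finset ι) (a : ι) (ha : a ∉ S) (hu : u ⊆ S) (z : ι → ℂ) :
    sum_sg (insert a S) u z = sum_sg S u z - z a ∧
    sum_sg (insert a S) (insert a u) z = sum_sg S u z + z a := by
  have hau : a ∉ u := fun h => ha (hu h)
  constructor
  · unfold sum_sg
    rw [sum_insert ha]
    have : sg u a = -1 := by unfold sg; rw [if_neg hau]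
    rw [this]
    push_cast
    ring
  · unfold sum_sg
    rw [sum_insert ha]
    have h1 : sg (insert a u) a = 1 := by unfold sg; rw [if_pos (mem_insert_self _ _)]
    rw [h1]
    have h2 : ∑ s ∈ S, (sg (insert a u) s : ℂ) * z s = ∑ s ∈ S, (sg u s : ℂ) * z s := by
      apply sum_congr rfl
      intro s hs
      congr 2
      unfold sg
      have : s ≠ a := fun h => ha (h ▸ hs)
      simp [mem_insert, this]
    rw [h2]
    push_cast
    ring

lemma par2 (x z : ℂ) : ‖x - z‖ ^ 2 + ‖x + z‖ ^ 2 = 2 * ‖x‖ ^ 2 + 2 * ‖z‖ ^ 2 := by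
  have := parallelogram_law_with_norm ℝ x z
  nlinarith

lemma par4 (x z : ℂ) : ‖x - z‖ ^ 4 + ‖x + z‖ ^ 4 ≤ 2 * ‖x‖ ^ 4 + 12 * ‖z‖ ^ 2 * ‖x‖ ^ 2 + 2 * ‖z‖ ^ 4 := by
  have h := par2 x z
  have h1 : ‖x - z‖ ^ 2 = ‖x‖ ^ 2 + ‖z‖ ^ 2 - 2 * (x.re * z.re + x.im * z.im) := by
    rw [← Complex.normSq_eq_norm_sq, ← Complex.normSq_eq_norm_sq, ← Complex.normSq_eq_norm_sq,
      Complex.normSq_apply, Complex.normSq_apply, Complex.normSq_apply]
    simp only [Complex.sub_re, Complex.sub_im]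
    ring
  have h2 : ‖x + z‖ ^ 2 = ‖x‖ ^ 2 + ‖z‖ ^ 2 + 2 * (x.re * z.re + x.im * z.im) := by linarith
  have h3 : (x.re * z.re + x.im * z.im) ^ 2 ≤ ‖x‖ ^ 2 * ‖z‖ ^ 2 := by
    rw [← Complex.normSq_eq_norm_sq, ← Complex.normSq_eq_norm_sq, Complex.normSq_apply,
      Complex.normSq_apply]
    nlinarith [sq_nonneg (x.re * z.im - x.im * z.re)]
  have e1 : ‖x - z‖ ^ 4 = (‖x - z‖ ^ 2) ^ 2 := by ring
  have e2 : ‖x + z‖ ^ 4 = (‖x + z‖ ^ 2) ^ 2 := by ring
  rw [e1, e2, h1, h2]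
  nlinarith

theorem moment2 (S : Finset ι) (z : ι → ℂ) (hz : ∀ s ∈ S, ‖z s‖ = 1) :
    ∑ u ∈ S.powerset, ‖sum_sg S u z‖ ^ 2 = 2 ^ S.card * S.card := by
  induction S using Finset.induction_on with
  | empty => simp [sum_sg]
  | insert a S ha ih =>
    rw [sum_powerset_insert ha, ← sum_add_distrib]
    have h1 : ∀ u ∈ S.powerset, ‖sum_sg (insert a S) u z‖ ^ 2 + ‖sum_sg (insert a S) (insert a u) z‖ ^ 2 =
        2 * ‖sum_sg S u z‖ ^ 2 + 2 := by
      intro u hu
      obtain ⟨e1, e2⟩ := sum_sg_insert S u a ha (mem_powerset.1 hu) z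
      rw [e1, e2, par2, hz a (mem_insert_self _ _)]
      ring
    rw [sum_congr rfl h1, sum_add_distrib, ← mul_sum, ih (fun s hs => hz s (mem_insert_of_mem hs)),
      sum_const, card_powerset, card_insert_of_notMem ha, nsmul_eq_mul]
    push_cast
    ring

theorem moment4 (S : Finset ι) (z : ι → ℂ) (hz : ∀ s ∈ S, ‖z s‖ = 1) :
    ∑ u ∈ S.powerset, ‖sum_sg S u z‖ ^ 4 ≤ 2 ^ S.card * (3 * (S.card : ℝ) ^ 2) := by
  induction S using Finset.induction_on with
  | empty => simp [sum_sg]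
  | insert a S ha ih =>
    rw [sum_powerset_insert ha, ← sum_add_distrib]
    have h1 : ∀ u ∈ S.powerset, ‖sum_sg (insert a S) u z‖ ^ 4 + ‖sum_sg (insert a S) (insert a u) z‖ ^ 4 ≤
        2 * ‖sum_sg S u z‖ ^ 4 + 12 * ‖sum_sg S u z‖ ^ 2 + 2 := by
      intro u hu
      obtain ⟨e1, e2⟩ := sum_sg_insert S u a ha (mem_powerset.1 hu) z
      rw [e1, e2]
      refine (par4 _ _).trans (le_of_eq ?_)
      rw [hz a (mem_insert_self _ _)]
      ring
    refine (sum_le_sum h1).trans ?_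
    have h2 := ih (fun s hs => hz s (mem_insert_of_mem hs))
    have h3 := moment2 S z (fun s hs => hz s (mem_insert_of_mem hs))
    rw [sum_add_distrib, sum_add_distrib, ← mul_sum, ← mul_sum, h3, sum_const, card_powerset,
      card_insert_of_notMem ha, nsmul_eq_mul]
    push_cast
    have h4 : (0 : ℝ) < 2 ^ S.card := by positivity
    rw [pow_succ]
    nlinarith

/-- many large values for a suitable choice of the signs -/
theorem exists_signs (S : Finset ι) (W : Finset κ) (z : ι → κ → ℂ) (hz : ∀ s ∈ S, ∀ t ∈ W, ‖z s t‖ = 1) :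
    ∃ u : Finset ι, (W.card : ℝ) ≤
      12 * ((W.filter (fun t => (S.card : ℝ) / 2 ≤ ‖∑ s ∈ S, (sg u s : ℂ) * z s t‖ ^ 2)).card : ℝ) := by
  classical
  by_cases hS : S = ∅
  · refine ⟨∅, ?_⟩
    subst hS
    have : W.filter (fun t => ((∅ : Finset ι).card : ℝ) / 2 ≤ ‖∑ s ∈ (∅ : Finset ι), (sg ∅ s : ℂ) * z s t‖ ^ 2) = W := by
      apply filter_true_of_mem
      intro t _
      simp
    rw [this]
    have : (0 : ℝ) ≤ W.card := Nat.cast_nonneg _
    linarith
  by_cases hW : W = ∅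
  · refine ⟨∅, ?_⟩
    subst hW
    simp
  have hn : (0 : ℝ) < S.card := by exact_mod_cast card_pos.2 (nonempty_iff_ne_empty.2 hS)
  have hw : (0 : ℝ) < W.card := by exact_mod_cast card_pos.2 (nonempty_iff_ne_empty.2 hW)
  set n : ℝ := (S.card : ℝ) with hndef
  by_contra hcon
  push Not at hcon
  set X : Finset ι → κ → ℝ := fun u t => ‖∑ s ∈ S, (sg u s : ℂ) * z s t‖ with hX
  set P := (S.powerset ×ˢ W).filter (fun p => n / 2 ≤ X p.1 p.2 ^ 2) with hP
  have hX2 : ∑ p ∈ S.powerset ×ˢ W, X p.1 p.2 ^ 2 = 2 ^ S.card * n * W.card := by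
    rw [sum_product_right]
    have : ∀ t ∈ W, ∑ u ∈ S.powerset, X u t ^ 2 = 2 ^ S.card * n := fun t ht =>
      moment2 S (fun s => z s t) (fun s hs => hz s hs t ht)
    rw [sum_congr rfl this, sum_const, nsmul_eq_mul]
    ring
  have hX4 : ∑ p ∈ S.powerset ×ˢ W, X p.1 p.2 ^ 4 ≤ 2 ^ S.card * (3 * n ^ 2) * W.card := by
    rw [sum_product_right]
    have : ∀ t ∈ W, ∑ u ∈ S.powerset, X u t ^ 4 ≤ 2 ^ S.card * (3 * n ^ 2) := fun t ht =>
      moment4 S (fun s => z s t) (fun s hs => hz s hs t ht)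
    refine (sum_le_sum this).trans ?_
    rw [sum_const, nsmul_eq_mul]
    linarith
  have hPc : (P.card : ℝ) < 2 ^ S.card * W.card / 12 := by
    have h1 : (P.card : ℝ) = ∑ u ∈ S.powerset,
        ((W.filter (fun t => n / 2 ≤ X u t ^ 2)).card : ℝ) := by
      rw [hP, card_filter]
      push_cast
      rw [sum_product]
      apply sum_congr rfl
      intro u _
      rw [card_filter]
      push_cast
      rfl
    rw [h1]
    have h2 : ∀ u ∈ S.powerset, ((W.filter (fun t => n / 2 ≤ X u t ^ 2)).card : ℝ) < W.card / 12 := by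
      intro u _
      have := hcon u
      linarith
    have h3 : S.powerset.Nonempty := ⟨∅, empty_mem_powerset S⟩
    calc _ < ∑ u ∈ S.powerset, (W.card : ℝ) / 12 := sum_lt_sum_of_nonempty h3 h2
      _ = _ := by
        rw [sum_const, card_powerset, nsmul_eq_mul]
        push_cast
        ring
  -- the large part of the second moment
  have hlow : 2 ^ S.card * n * W.card / 2 ≤ ∑ p ∈ P, X p.1 p.2 ^ 2 := by
    have h1 := sum_filter_add_sum_filter_not (S.powerset ×ˢ W) (fun p => n / 2 ≤ X p.1 p.2 ^ 2)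
      (fun p => X p.1 p.2 ^ 2)
    have h2 : ∑ p ∈ (S.powerset ×ˢ W).filter (fun p => ¬ n / 2 ≤ X p.1 p.2 ^ 2), X p.1 p.2 ^ 2 ≤
        2 ^ S.card * n * W.card / 2 := by
      calc _ ≤ ∑ p ∈ (S.powerset ×ˢ W).filter (fun p => ¬ n / 2 ≤ X p.1 p.2 ^ 2), n / 2 := by
            apply sum_le_sum
            intro p hp
            have := (mem_filter.1 hp).2
            linarith
        _ ≤ ∑ p ∈ S.powerset ×ˢ W, n / 2 :=
            sum_le_sum_of_subset_of_nonneg (filter_subset _ _) (fun _ _ _ => by positivity)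
        _ = _ := by
            rw [sum_const, card_product, card_powerset, nsmul_eq_mul]
            push_cast
            ring
    rw [hX2] at h1
    linarith
  have hCS : (∑ p ∈ P, X p.1 p.2 ^ 2) ^ 2 ≤ P.card * ∑ p ∈ P, X p.1 p.2 ^ 4 := by
    have := sum_mul_sq_le_sq_mul_sq P (fun _ => (1 : ℝ)) (fun p => X p.1 p.2 ^ 2)
    simp only [one_mul, one_pow, sum_const, nsmul_eq_mul, mul_one] at this
    refine this.trans (le_of_eq ?_)
    congr 1
    apply sum_congr rfl
    intro p _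
    ring
  have hP4 : ∑ p ∈ P, X p.1 p.2 ^ 4 ≤ 2 ^ S.card * (3 * n ^ 2) * W.card :=
    (sum_le_sum_of_subset_of_nonneg (filter_subset _ _) (fun _ _ _ => by positivity)).trans hX4
  have h2pos : (0 : ℝ) < 2 ^ S.card := by positivity
  have hQ : (0 : ℝ) < 2 ^ S.card * n * W.card := by positivity
  have hfin : (2 ^ S.card * n * W.card / 2) ^ 2 < (2 ^ S.card * n * W.card / 2) ^ 2 := by
    calc (2 ^ S.card * n * W.card / 2) ^ 2 ≤ (∑ p ∈ P, X p.1 p.2 ^ 2) ^ 2 :=
          pow_le_pow_left₀ (by positivity) hlow 2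
      _ ≤ P.card * ∑ p ∈ P, X p.1 p.2 ^ 4 := hCS
      _ ≤ P.card * (2 ^ S.card * (3 * n ^ 2) * W.card) :=
          mul_le_mul_of_nonneg_left hP4 (Nat.cast_nonneg _)
      _ < 2 ^ S.card * W.card / 12 * (2 ^ S.card * (3 * n ^ 2) * W.card) :=
          mul_lt_mul_of_pos_right hPc (by positivity)
      _ = (2 ^ S.card * n * W.card / 2) ^ 2 := by ring
  exact lt_irrefl _ hfin

end Pool.Agent.Q261.DP
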