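import Pool.Agent.Q261.DP.Phase
import Pool.Agent.Q261.DP.Signs

/-!
The polynomials `∑_{s} ± s^{it} ∑_{j ≤ J} (M + j)^{it}`: the size of the coefficients and the large values.
-/

set_option autoImplicit false

namespace Pool.Agent.Q261.DP

open Finset

/-- the pairs -/
def PP (S L J : ℕ) : Finset (ℕ × ℕ) := Icc S (S + L) ×ˢ range (J + 1)

/-- the products -/
def val (M : ℕ) (p : ℕ × ℕ) : ℕ := p.1 * (M + p.2)

/-- number of the representations -/
def rr (S L J M n : ℕ) : ℕ := ((PP S L J).filter (fun p => val M p = n)).card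

lemma offdiag (S L J M j j' : ℕ) (hLS : L ≤ S) (hS : 1 ≤ S) (hM : 1 ≤ M) (hj : j ≤ J) (hj' : j' ≤ J) (hne : j ≠ j') :
    (((Icc S (S + L)) ×ˢ (Icc S (S + L))).filter (fun p => p.1 * (M + j) = p.2 * (M + j'))).card * M ≤
      2 * S * J := by
  classical
  set g := Nat.gcd (M + j) (M + j') with hg
  have hg0 : 0 < g := Nat.gcd_pos_of_pos_left _ (by omega)
  have hgJ : g ≤ J := by
    have h1 : g ∣ (M + j) := Nat.gcd_dvd_left _ _
    have h2 : g ∣ (M + j') := Nat.gcd_dvd_right _ _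
    rcases Nat.lt_or_gt_of_ne hne with h | h
    · have h3 : g ∣ (M + j') - (M + j) := Nat.dvd_sub h2 h1
      have h4 := Nat.le_of_dvd (by omega) h3
      omega
    · have h3 : g ∣ (M + j) - (M + j') := Nat.dvd_sub h1 h2
      have h4 := Nat.le_of_dvd (by omega) h3
      omega
  obtain ⟨q, hq⟩ : g ∣ (M + j) := Nat.gcd_dvd_left _ _
  obtain ⟨q', hq'⟩ : g ∣ (M + j') := Nat.gcd_dvd_right _ _
  have hcop : Nat.Coprime q q' := by
    have h1 : Nat.gcd (g * q) (g * q') = g := by rw [← hq, ← hq']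
    rw [Nat.gcd_mul_left] at h1
    exact Nat.eq_of_mul_eq_mul_left hg0 (by rw [h1, mul_one])
  set F := ((Icc S (S + L)) ×ˢ (Icc S (S + L))).filter (fun p => p.1 * (M + j) = p.2 * (M + j')) with hF
  have hinj : Set.InjOn (fun p : ℕ × ℕ => p.2) (F : Set (ℕ × ℕ)) := by
    intro a ha b hb hab
    have h1 := (mem_filter.1 ha).2
    have h2 := (mem_filter.1 hb).2
    simp only at hab
    rw [← hab] at h2
    have h3 : a.1 * (M + j) = b.1 * (M + j) := by rw [h1, h2]
    have h4 : a.1 = b.1 := Nat.eq_of_mul_eq_mul_right (by omega) h3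
    exact Prod.ext h4 hab
  have hsub : F.image (fun p : ℕ × ℕ => p.2) ⊆ (Ioc 0 (2 * S)).filter (fun x => q ∣ x) := by
    intro x hx
    rw [mem_image] at hx
    obtain ⟨p, hp, rfl⟩ := hx
    obtain ⟨hp1, hp2⟩ := mem_filter.1 hp
    rw [mem_product, mem_Icc, mem_Icc] at hp1
    rw [mem_filter, mem_Ioc]
    refine ⟨⟨by omega, by omega⟩, ?_⟩
    rw [hq, hq'] at hp2
    have h5 : p.1 * q = p.2 * q' := by
      apply Nat.eq_of_mul_eq_mul_left hg0
      calc g * (p.1 * q) = p.1 * (g * q) := by ring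
        _ = p.2 * (g * q') := hp2
        _ = g * (p.2 * q') := by ring
    exact hcop.dvd_of_dvd_mul_right (Dvd.intro_left p.1 h5)
  have hc : F.card ≤ 2 * S / q := by
    rw [← card_image_of_injOn hinj]
    refine (card_le_card hsub).trans (le_of_eq ?_)
    rw [Nat.Ioc_filter_dvd_card_eq_div]
  have hq0 : 0 < q := by
    rcases Nat.eq_zero_or_pos q with h | h
    · rw [h, mul_zero] at hq; omega
    · exact h
  calc F.card * M ≤ F.card * (q * J) := by
        apply Nat.mul_le_mul_left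
        calc M ≤ M + j := Nat.le_add_right _ _
          _ = g * q := hq
          _ ≤ J * q := Nat.mul_le_mul_right _ hgJ
          _ = q * J := mul_comm _ _
    _ = (F.card * q) * J := by ring
    _ ≤ (2 * S / q * q) * J := by gcongr
    _ ≤ 2 * S * J := Nat.mul_le_mul_right _ (Nat.div_mul_le_self _ _)

/-- the additive energy -/
theorem energy (S L J M : ℕ) (hLS : L ≤ S) (hS : 1 ≤ S) (hSL : S ≤ 4 * (L + 1)) (hJ : 1 ≤ J)
    (hM : 8 * J * (J + 1) ≤ M) :
    (((PP S L J) ×ˢ (PP S L J)).filter (fun x => val M x.1 = val M x.2)).card ≤ 2 * ((L + 1) * (J + 1)) := by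
  classical
  have hM1 : 1 ≤ M := by nlinarith
  have h1 : (((PP S L J) ×ˢ (PP S L J)).filter (fun x => val M x.1 = val M x.2)).card =
      ∑ y ∈ range (J + 1) ×ˢ range (J + 1), (((Icc S (S + L)) ×ˢ (Icc S (S + L))).filter
        (fun p => p.1 * (M + y.1) = p.2 * (M + y.2))).card := by
    rw [card_eq_sum_card_fiberwise (f := fun x : (ℕ × ℕ) × (ℕ × ℕ) => (x.1.2, x.2.2))
      (t := range (J + 1) ×ˢ range (J + 1))]
    · apply sum_congr rfl
      intro y hy
      rw [mem_product] at hy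
      apply card_bij (fun x _ => (x.1.1, x.2.1))
      · intro x hx
        rw [mem_filter, mem_filter, mem_product] at hx
        obtain ⟨⟨⟨h1, h2⟩, h3⟩, h4⟩ := hx
        unfold PP at h1 h2
        rw [mem_product] at h1 h2
        rw [mem_filter, mem_product]
        refine ⟨⟨h1.1, h2.1⟩, ?_⟩
        rw [← h4]
        exact h3
      · intro a ha b hb hab
        have h1 := (mem_filter.1 ha).2
        have h2 := (mem_filter.1 hb).2
        rw [Prod.mk.injEq] at hab
        rw [← h2, Prod.mk.injEq] at h1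
        exact Prod.ext (Prod.ext hab.1 h1.1) (Prod.ext hab.2 h1.2)
      · intro b hb
        rw [mem_filter, mem_product] at hb
        refine ⟨((b.1, y.1), (b.2, y.2)), ?_, rfl⟩
        rw [mem_filter, mem_filter, mem_product]
        unfold PP
        rw [mem_product, mem_product]
        exact ⟨⟨⟨⟨hb.1.1, hy.1⟩, ⟨hb.1.2, hy.2⟩⟩, hb.2⟩, rfl⟩
    · intro x hx
      have hx := (mem_filter.1 (mem_coe.1 hx)).1
      unfold PP at hx
      rw [mem_product, mem_product, mem_product] at hx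
      rw [mem_coe, mem_product]
      exact ⟨hx.1.2, hx.2.2⟩
  rw [h1]
  -- the diagonal and the off-diagonal
  have hterm : ∀ y ∈ range (J + 1) ×ˢ range (J + 1),
      (((Icc S (S + L)) ×ˢ (Icc S (S + L))).filter (fun p => p.1 * (M + y.1) = p.2 * (M + y.2))).card * M ≤
        (if y.1 = y.2 then (L + 1) * M else 0) + 2 * S * J := by
    intro y hy
    rw [mem_product, mem_range, mem_range] at hy
    split_ifs with h
    · have hc : (((Icc S (S + L)) ×ˢ (Icc S (S + L))).filter
          (fun p => p.1 * (M + y.1) = p.2 * (M + y.2))).card ≤ L + 1 := by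
        have : (Icc S (S + L)).card = L + 1 := by rw [Nat.card_Icc]; omega
        rw [← this]
        apply card_le_card_of_injOn (fun p => p.1)
        · intro p hp
          have hp := (mem_filter.1 (mem_coe.1 hp)).1
          exact (mem_product.1 hp).1
        · intro a ha b hb hab
          have h1 := (mem_filter.1 (mem_coe.1 ha)).2
          have h2 := (mem_filter.1 (mem_coe.1 hb)).2
          simp only at hab
          rw [h] at h1 h2
          have e1 := Nat.eq_of_mul_eq_mul_right (by omega) h1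
          have e2 := Nat.eq_of_mul_eq_mul_right (by omega) h2
          exact Prod.ext hab (by rw [← e1, ← e2, hab])
      have := Nat.mul_le_mul_right M hc
      omega
    · rw [zero_add]
      exact offdiag S L J M y.1 y.2 hLS hS hM1 (by omega) (by omega) h
  have hsum : (∑ y ∈ range (J + 1) ×ˢ range (J + 1), (((Icc S (S + L)) ×ˢ (Icc S (S + L))).filter
        (fun p => p.1 * (M + y.1) = p.2 * (M + y.2))).card) * M ≤
      (J + 1) * ((L + 1) * M) + (J + 1) * (J + 1) * (2 * S * J) := by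
    rw [sum_mul]
    refine (sum_le_sum hterm).trans ?_
    rw [sum_add_distrib, sum_const, card_product, card_range, smul_eq_mul]
    apply Nat.add_le_add_right
    rw [sum_product]
    apply le_of_eq
    have : ∀ x ∈ range (J + 1), ∑ y ∈ range (J + 1), (if (x, y).1 = (x, y).2 then (L + 1) * M else 0) =
        (L + 1) * M := by
      intro x hx
      rw [sum_ite_eq]
      rw [if_pos hx]
    rw [sum_congr rfl this, sum_const, card_range, smul_eq_mul]
  have h2 : (J + 1) * (J + 1) * (2 * S * J) ≤ (J + 1) * ((L + 1) * M) := by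
    have h3 : 8 * J * (J + 1) * (L + 1) ≤ M * (L + 1) := Nat.mul_le_mul_right _ hM
    have h4 : (J + 1) * (2 * S * J) ≤ 8 * J * (J + 1) * (L + 1) := by
      have : S * (2 * J * (J + 1)) ≤ 4 * (L + 1) * (2 * J * (J + 1)) := Nat.mul_le_mul_right _ hSL
      nlinarith
    calc (J + 1) * (J + 1) * (2 * S * J) = (J + 1) * ((J + 1) * (2 * S * J)) := by ring
      _ ≤ (J + 1) * (M * (L + 1)) := Nat.mul_le_mul_left _ (h4.trans h3)
      _ = _ := by ring
  refine Nat.le_of_mul_le_mul_right (c := M) ?_ (by omega)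
  calc _ ≤ (J + 1) * ((L + 1) * M) + (J + 1) * (J + 1) * (2 * S * J) := hsum
    _ ≤ (J + 1) * ((L + 1) * M) + (J + 1) * ((L + 1) * M) := Nat.add_le_add_left h2 _
    _ = _ := by ring

lemma rr_le (S L J M n : ℕ) (hS : 1 ≤ S) (hn : n ≠ 0) : rr S L J M n ≤ n.divisors.card := by
  unfold rr
  apply card_le_card_of_injOn (fun p => p.1)
  · intro p hp
    have hp := (mem_filter.1 (mem_coe.1 hp))
    rw [mem_coe, Nat.mem_divisors]
    exact ⟨Dvd.intro _ hp.2, hn⟩
  · intro a ha b hb hab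
    have h1 := (mem_filter.1 (mem_coe.1 ha))
    have h2 := (mem_filter.1 (mem_coe.1 hb))
    simp only at hab
    unfold PP at h1 h2
    rw [mem_product, mem_Icc] at h1 h2
    unfold val at h1 h2
    have h3 : a.1 * (M + a.2) = a.1 * (M + b.2) := by rw [h1.2, hab, h2.2]
    have h4 := Nat.eq_of_mul_eq_mul_left (by omega) h3
    exact Prod.ext hab (by omega)

lemma rr_sq_sum (S L J M : ℕ) (I : Finset ℕ) (hI : ∀ p ∈ PP S L J, val M p ∈ I) :
    ∑ n ∈ I, (rr S L J M n) ^ 2 =
      (((PP S L J) ×ˢ (PP S L J)).filter (fun x => val M x.1 = val M x.2)).card := by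
  classical
  rw [card_eq_sum_card_fiberwise (f := fun x : (ℕ × ℕ) × (ℕ × ℕ) => val M x.1) (t := I)]
  · apply sum_congr rfl
    intro n _
    unfold rr
    rw [sq, ← card_product]
    congr 1
    ext x
    simp only [mem_product, mem_filter]
    constructor
    · rintro ⟨⟨h1, h2⟩, h3, h4⟩
      exact ⟨⟨⟨h1, h3⟩, by rw [h2, h4]⟩, h2⟩
    · rintro ⟨⟨⟨h1, h3⟩, h5⟩, h2⟩
      exact ⟨⟨h1, h2⟩, h3, by rw [← h5, h2]⟩
  · intro x hx
    have hx := (mem_product.1 (mem_filter.1 (mem_coe.1 hx)).1)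
    exact mem_coe.2 (hI _ hx.1)

/-- the coefficients -/
noncomputable def cc (u : Finset ℕ) (S L J M n : ℕ) : ℝ :=
  ∑ p ∈ (PP S L J).filter (fun p => val M p = n), sg u p.1

lemma cc_abs (u : Finset ℕ) (S L J M n : ℕ) : |cc u S L J M n| ≤ rr S L J M n := by
  unfold cc rr
  refine (abs_sum_le_sum_abs _ _).trans ?_
  calc _ ≤ ∑ p ∈ (PP S L J).filter (fun p => val M p = n), (1 : ℝ) := by
        apply sum_le_sum
        intro p _
        rcases sg_eq u p.1 with h | h <;> rw [h] <;> simp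
    _ = _ := by rw [sum_const, nsmul_eq_mul, mul_one]

lemma factor (u : Finset ℕ) (S L J M : ℕ) (hS : 1 ≤ S) (hM : 1 ≤ M) (I : Finset ℕ)
    (hI : ∀ p ∈ PP S L J, val M p ∈ I) (t : ℝ) :
    ∑ n ∈ I, (cc u S L J M n : ℂ) * ph t n =
      (∑ s ∈ Icc S (S + L), (sg u s : ℂ) * ph t s) * ∑ j ∈ range (J + 1), ph t (M + j) := by
  classical
  rw [sum_mul_sum, ← sum_product']
  have h1 : ∑ x ∈ Icc S (S + L) ×ˢ range (J + 1), (sg u x.1 : ℂ) * ph t x.1 * ph t (M + x.2) =
      ∑ n ∈ I, ∑ x ∈ (PP S L J).filter (fun p => val M p = n), (sg u x.1 : ℂ) * ph t x.1 * ph t (M + x.2) :=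
    (sum_fiberwise_of_maps_to (s := PP S L J) (t := I) (g := val M) hI _).symm
  rw [h1]
  apply sum_congr rfl
  intro n _
  unfold cc
  push_cast
  rw [sum_mul]
  apply sum_congr rfl
  intro p hp
  obtain ⟨hp1, hp2⟩ := mem_filter.1 hp
  unfold PP at hp1
  rw [mem_product, mem_Icc] at hp1
  rw [mul_assoc, ← ph_mul t p.1 (M + p.2) (by omega) (by omega)]
  congr 2
  exact hp2.symm

/-- **Core**: coefficients of mean square at most one with many large values -/
theorem core (N d J M T : ℕ) (hd : 1 ≤ d) (hJ : 1 ≤ J) (hM : 8 * J * (J + 1) ≤ M) (hMN : 4 * M ≤ N)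
    (hT : 4 * T * J ^ (d + 1) ≤ M ^ (d + 1)) :
    ∃ (b : ℕ → ℝ) (W : Finset ℕ),
      (∀ n, n ≠ 0 → b n ^ 2 ≤ 2 * M / (J + 1) * (n.divisors.card : ℝ) ^ 2) ∧
      (∀ n, n ∉ Icc N (2 * N) → b n = 0) ∧
      (∑ n ∈ Icc N (2 * N), b n ^ 2 ≤ N) ∧
      (∀ t ∈ W, t ≤ T ∧ (N : ℝ) * (J + 1) / 16 ≤ ‖∑ n ∈ Icc N (2 * N), (b n : ℂ) * ph t n‖ ^ 2) ∧
      (T : ℝ) + 1 ≤ 12 * (W.card : ℝ) * ∏ i ∈ range d, ((16 * d : ℝ) * (J : ℝ) ^ (i + 1)) := by
  classical
  have hM1 : 16 ≤ M := by nlinarith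
  have hMJ : 16 * J ≤ M := by nlinarith
  have hJr : (1 : ℝ) ≤ J := by exact_mod_cast hJ
  have hMr : (1 : ℝ) ≤ M := by exact_mod_cast (by omega : 1 ≤ M)
  have hNr : (0 : ℝ) < N := by exact_mod_cast (by omega : 0 < N)
  -- the parameters
  set S := N / M + 1 with hS
  set L := S / 4 with hL
  have hS1 : 1 ≤ S := Nat.succ_le_succ (Nat.zero_le _)
  have hLS : L ≤ S := by omega
  have hSL : S ≤ 4 * (L + 1) := by omega
  have hSM1 : N ≤ S * M := by
    have := Nat.div_add_mod N M
    have h2 := Nat.mod_lt N (show 0 < M by omega)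
    rw [hS, add_mul, one_mul, mul_comm]
    omega
  have hSM2 : S * M ≤ N + M := by
    rw [hS, add_mul, one_mul]
    have := Nat.div_mul_le_self N M
    omega
  have hval : ∀ p ∈ PP S L J, val M p ∈ Icc N (2 * N) := by
    intro p hp
    unfold PP at hp
    rw [mem_product, mem_Icc, mem_range] at hp
    obtain ⟨⟨h1, h2⟩, h3⟩ := hp
    rw [mem_Icc]
    unfold val
    constructor
    · calc N ≤ S * M := hSM1
        _ ≤ p.1 * (M + p.2) := Nat.mul_le_mul h1 (Nat.le_add_right _ _)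
    · have h4 : 4 * p.1 ≤ 5 * S := by omega
      have h5 : 16 * (M + p.2) ≤ 17 * M := by omega
      have h6 : (4 * p.1) * (16 * (M + p.2)) ≤ (5 * S) * (17 * M) := Nat.mul_le_mul h4 h5
      have h7 : (5 * S) * (17 * M) = 85 * (S * M) := by ring
      have h8 : (4 * p.1) * (16 * (M + p.2)) = 64 * (p.1 * (M + p.2)) := by ring
      rw [h7, h8] at h6
      omega
  obtain ⟨W0, hW1, hW2⟩ := short_large d J M T hJ hd (by omega) hT
  obtain ⟨u, hu⟩ := exists_signs (Icc S (S + L)) W0 (fun s t => ph (t : ℝ) s) (fun s _ t _ => ph_norm _ _)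
  have hcard : ((Icc S (S + L)).card : ℝ) = L + 1 := by
    rw [Nat.card_Icc]
    have : S + L + 1 - S = L + 1 := by omega
    rw [this]
    push_cast
    ring
  rw [hcard] at hu
  set β2 : ℝ := N / (2 * ((L + 1) * (J + 1))) with hβ2
  have hβ2p : 0 < β2 := by positivity
  set β : ℝ := Real.sqrt β2 with hβ
  have hβsq : β ^ 2 = β2 := Real.sq_sqrt hβ2p.le
  have hβ2le : β2 ≤ 2 * M / (J + 1) := by
    rw [hβ2, div_le_div_iff₀ (by positivity) (by positivity)]
    have h1 : (N : ℝ) ≤ 4 * (L + 1) * M := by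
      have : N ≤ 4 * (L + 1) * M := hSM1.trans (Nat.mul_le_mul_right _ hSL)
      exact_mod_cast this
    have h2 : (0 : ℝ) < J + 1 := by positivity
    nlinarith
  refine ⟨fun n => β * cc u S L J M n, W0.filter (fun t => ((L : ℝ) + 1) / 2 ≤
    ‖∑ s ∈ Icc S (S + L), (sg u s : ℂ) * ph t s‖ ^ 2), ?_, ?_, ?_, ?_, ?_⟩
  · intro n hn
    rw [mul_pow, hβsq]
    apply mul_le_mul hβ2le _ (sq_nonneg _) (by positivity)
    rw [← sq_abs]
    apply pow_le_pow_left₀ (abs_nonneg _)
    exact (cc_abs u S L J M n).trans (by exact_mod_cast rr_le S L J M n hS1 hn)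
  · intro n hn
    have : (PP S L J).filter (fun p => val M p = n) = ∅ := by
      apply filter_eq_empty_iff.2
      intro p hp h0
      have := hval p hp
      rw [h0] at this
      exact hn this
    show β * cc u S L J M n = 0
    unfold cc
    rw [this, sum_empty, mul_zero]
  · have h1 : ∑ n ∈ Icc N (2 * N), (β * cc u S L J M n) ^ 2 ≤ β2 * ∑ n ∈ Icc N (2 * N), (rr S L J M n : ℝ) ^ 2 := by
      rw [mul_sum]
      apply sum_le_sum
      intro n _
      rw [mul_pow, hβsq]
      apply mul_le_mul_of_nonneg_left _ hβ2p.le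
      rw [← sq_abs]
      exact pow_le_pow_left₀ (abs_nonneg _) (cc_abs u S L J M n) 2
    refine h1.trans ?_
    have h2 : (∑ n ∈ Icc N (2 * N), (rr S L J M n : ℝ) ^ 2) ≤ 2 * (((L : ℝ) + 1) * (J + 1)) := by
      have h3 := (rr_sq_sum S L J M (Icc N (2 * N)) hval).le.trans (energy S L J M hLS hS1 hSL hJ hM)
      exact_mod_cast h3
    calc β2 * _ ≤ β2 * (2 * (((L : ℝ) + 1) * (J + 1))) := mul_le_mul_of_nonneg_left h2 hβ2p.le
      _ = N := by
        rw [hβ2]
        field_simp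
  · intro t ht
    obtain ⟨ht1, ht2⟩ := mem_filter.1 ht
    refine ⟨(hW1 t ht1).1, ?_⟩
    have h1 : ∑ n ∈ Icc N (2 * N), ((β * cc u S L J M n : ℝ) : ℂ) * ph t n =
        (β : ℂ) * ((∑ s ∈ Icc S (S + L), (sg u s : ℂ) * ph t s) * ∑ j ∈ range (J + 1), ph t (M + j)) := by
      rw [← factor u S L J M hS1 (by omega) (Icc N (2 * N)) hval t, mul_sum]
      apply sum_congr rfl
      intro n _
      push_cast
      ring
    rw [h1, norm_mul, norm_mul, mul_pow, mul_pow, Complex.norm_real, Real.norm_eq_abs, sq_abs, hβsq]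
    have h2 := (hW1 t ht1).2
    have h3 : (((J : ℝ) + 1) / 2) ^ 2 ≤ ‖∑ j ∈ range (J + 1), ph t (M + j)‖ ^ 2 :=
      pow_le_pow_left₀ (by positivity) h2 2
    calc (N : ℝ) * (J + 1) / 16 = β2 * ((((L : ℝ) + 1) / 2) * (((J : ℝ) + 1) / 2) ^ 2) := by
          rw [hβ2]
          field_simp
          ring
      _ ≤ _ := by
          apply mul_le_mul_of_nonneg_left _ hβ2p.le
          apply mul_le_mul ht2 h3 (by positivity) (sq_nonneg _)
  · refine hW2.trans ?_
    apply mul_le_mul_of_nonneg_right hu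
    exact prod_nonneg fun _ _ => by positivity

end Pool.Agent.Q261.DP
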