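import Pool.Agent.Q261.DP.Core
import Pool.Agent.H510R2.Div

set_option autoImplicit false

namespace Pool.Agent.Q261.DP

open Finset Filter

lemma ev_pow (C a : ℝ) (ha : 0 < a) : ∀ᶠ N : ℕ in atTop, C ≤ (N : ℝ) ^ a :=
  ((tendsto_rpow_atTop ha).comp tendsto_natCast_atTop_atTop).eventually (eventually_ge_atTop C)

/-- the exponents -/
theorem exponents (d : ℕ) (hd : 1 ≤ d) (σ lam : ℝ) (hσ : 1 / 2 < σ)
    (h1 : (1 + (σ - 1 / 2) * ((d + 2) * (d - 1))) / (2 * (d + 1)) < lam) (h2 : lam < 1 - σ) :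
    ∃ ε : ℝ, 0 < ε ∧ ∀ᶠ N : ℕ in atTop, ∃ (b : ℕ → ℝ) (W : Finset ℕ),
      (∀ n, |b n| ≤ (N : ℝ) ^ lam) ∧ (∑ n ∈ Icc N (2 * N), b n ^ 2 ≤ N) ∧
      (∀ t ∈ W, (t : ℝ) ≤ (N : ℝ) ^ (2 * (d + 1) * lam) ∧
        (N : ℝ) ^ σ < ‖∑ n ∈ Icc N (2 * N), (b n : ℂ) * ph t n‖) ∧
      (N : ℝ) ^ (2 - 2 * σ + ε) ≤ W.card := by
  classical
  have hdr : (1 : ℝ) ≤ d := by exact_mod_cast hd
  set j0 : ℝ := 2 * σ - 1 with hj0
  have hj0p : 0 < j0 := by rw [hj0]; linarith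
  have hlj : 2 * lam + j0 < 1 := by rw [hj0]; linarith
  -- the gain
  obtain ⟨g, hg⟩ : ∃ g : ℝ, g = 2 * lam * (d + 1) - 1 - j0 * ((d + 2) * (d - 1)) / 2 := ⟨_, rfl⟩
  have hg0 : 0 < g := by
    rw [div_lt_iff₀ (by positivity)] at h1
    rw [hg, hj0]
    nlinarith
  have hj2 : j0 < 2 * lam := by
    have h3 : 0 < 2 * lam * (d + 1) - 1 - j0 * ((d + 2) * (d - 1)) / 2 := by rw [← hg]; exact hg0
    have h4 : j0 * ((d : ℝ) + 1) ≤ 1 + j0 * ((d + 2) * (d - 1)) / 2 ∨ d = 1 := by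
      rcases Nat.lt_or_ge d 2 with h | h
      · right; omega
      · left
        have h5 : (2 : ℝ) ≤ d := by exact_mod_cast h
        have h6 : j0 < 1 := by
          have : 0 ≤ (1 + (σ - 1 / 2) * ((d + 2) * (d - 1))) / (2 * ((d : ℝ) + 1)) := by
            apply div_nonneg _ (by positivity)
            have h7 : 0 ≤ (σ - 1 / 2) * (((d : ℝ) + 2) * (d - 1)) :=
              mul_nonneg (by linarith) (mul_nonneg (by positivity) (by linarith))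
            linarith
          linarith
        nlinarith [mul_nonneg hj0p.le (by nlinarith : (0 : ℝ) ≤ (d : ℝ) ^ 2 - d - 2)]
    rcases h4 with h4 | h4
    · have h5 : j0 * ((d : ℝ) + 1) < 2 * lam * (d + 1) := by linarith
      exact lt_of_mul_lt_mul_right h5 (by positivity)
    · rw [h4] at h3
      push_cast at h3
      linarith
  -- the small parameter
  obtain ⟨q, hq⟩ : ∃ q : ℝ, q = 2 * (d + 1) + (d : ℝ) * (d + 1) / 2 := ⟨_, rfl⟩
  have hq0 : 0 < q := by rw [hq]; positivity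
  obtain ⟨ν, hν⟩ : ∃ ν : ℝ, ν = min (g / (2 * q)) ((2 * lam - j0) / 4) := ⟨_, rfl⟩
  have hν0 : 0 < ν := by
    rw [hν]
    apply lt_min (by positivity)
    linarith
  have hν1 : ν * q ≤ g / 2 := by
    have : ν ≤ g / (2 * q) := by rw [hν]; exact min_le_left _ _
    rw [le_div_iff₀ (by positivity)] at this
    linarith
  have hν2 : ν ≤ (2 * lam - j0) / 4 := by rw [hν]; exact min_le_right _ _
  obtain ⟨κ, hκ⟩ : ∃ κ : ℝ, κ = j0 + ν := ⟨_, rfl⟩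
  obtain ⟨l', hl'⟩ : ∃ l' : ℝ, l' = lam - ν := ⟨_, rfl⟩
  obtain ⟨μ, hμ⟩ : ∃ μ : ℝ, μ = 2 * l' + κ := ⟨_, rfl⟩
  have hκ0 : 0 < κ := by rw [hκ]; linarith
  have hκl : κ < 2 * l' := by rw [hκ, hl']; linarith
  have hμ1 : μ < 1 := by rw [hμ, hκ, hl']; linarith
  have hμ0 : 0 < μ := by rw [hμ]; linarith
  obtain ⟨w, hw⟩ : ∃ w : ℝ, w = 2 * l' * (d + 1) - κ * ((d : ℝ) * (d + 1) / 2) := ⟨_, rfl⟩
  have hw1 : 1 - j0 + g / 2 ≤ w := by
    have : w = 1 - j0 + g - ν * q := by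
      rw [hw, hl', hκ, hg, hq]
      ring
    rw [this]
    linarith
  obtain ⟨C, hC, hdiv⟩ := Pool.Agent.H510R2.divisor_bound (ν / 2) (by positivity)
  obtain ⟨e, he⟩ : ∃ e : ℕ, e = ∑ i ∈ range d, (i + 1) := ⟨_, rfl⟩
  have her : (e : ℝ) = (d : ℝ) * (d + 1) / 2 := by
    have h3 : ∀ m : ℕ, ((∑ i ∈ range m, (i + 1) : ℕ) : ℝ) = (m : ℝ) * (m + 1) / 2 := by
      intro m
      induction m with
      | zero => simp
      | succ m ih =>
        rw [sum_range_succ, Nat.cast_add, ih]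
        push_cast
        ring
    rw [he]
    exact h3 d
  refine ⟨g / 4, by positivity, ?_⟩
  filter_upwards [ev_pow 96 (μ - 2 * κ) (by rw [hμ]; linarith), ev_pow 4 (1 - μ) (by linarith),
    ev_pow (2 * C ^ 2 * 2 ^ ν) ν hν0, ev_pow 17 ν hν0,
    ev_pow (12 * ((16 * d : ℝ) ^ d * 2 ^ e) * 4 ^ (d + 2)) (g / 4) (by positivity),
    eventually_ge_atTop 1, ev_pow 2 μ hμ0] with N e1 e2 e3 e4 e5 hN1 e6
  have hNr : (1 : ℝ) ≤ N := by exact_mod_cast hN1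
  have hN0 : (0 : ℝ) < N := by linarith
  have pw : ∀ a b : ℝ, (N : ℝ) ^ a * (N : ℝ) ^ b = (N : ℝ) ^ (a + b) := fun a b =>
    (Real.rpow_add hN0 a b).symm
  have pwn : ∀ (a : ℝ) (k : ℕ), ((N : ℝ) ^ a) ^ k = (N : ℝ) ^ (a * k) := fun a k => by
    rw [← Real.rpow_natCast, ← Real.rpow_mul hN0.le]
  have pos : ∀ a : ℝ, 0 < (N : ℝ) ^ a := fun a => Real.rpow_pos_of_pos hN0 a
  have mono : ∀ a b : ℝ, a ≤ b → (N : ℝ) ^ a ≤ (N : ℝ) ^ b := fun a b h =>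
    Real.rpow_le_rpow_of_exponent_le hNr h
  -- the integers
  set J : ℕ := ⌈(N : ℝ) ^ κ⌉₊ with hJ
  set M : ℕ := ⌊(N : ℝ) ^ μ⌋₊ with hM
  have hJ1 : (N : ℝ) ^ κ ≤ J := Nat.le_ceil _
  have hκ1 : (1 : ℝ) ≤ (N : ℝ) ^ κ := by
    have := mono 0 κ hκ0.le
    rwa [Real.rpow_zero] at this
  have hJ2 : (J : ℝ) ≤ 2 * (N : ℝ) ^ κ := by
    have := Nat.ceil_lt_add_one (pos κ).le
    linarith
  have hM1 : (M : ℝ) ≤ (N : ℝ) ^ μ := Nat.floor_le (pos μ).le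
  have hM2 : (N : ℝ) ^ μ / 2 ≤ M := by
    have := Nat.lt_floor_add_one ((N : ℝ) ^ μ)
    rw [← hM] at this
    linarith
  have hJn : 1 ≤ J := by
    have : (1 : ℝ) ≤ J := hκ1.trans hJ1
    exact_mod_cast this
  have hJr : (1 : ℝ) ≤ J := by exact_mod_cast hJn
  have hMr : (1 : ℝ) ≤ M := by linarith
  have hcond1 : 8 * J * (J + 1) ≤ M := by
    have h3 : (8 : ℝ) * J * (J + 1) ≤ M := by
      have h4 : (8 : ℝ) * J * (J + 1) ≤ 8 * (2 * (N : ℝ) ^ κ) * (3 * (N : ℝ) ^ κ) := by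
        have : (J : ℝ) + 1 ≤ 3 * (N : ℝ) ^ κ := by linarith
        gcongr
      have h5 : 8 * (2 * (N : ℝ) ^ κ) * (3 * (N : ℝ) ^ κ) = 48 * (N : ℝ) ^ (κ + κ) := by
        rw [← pw]; ring
      have h6 : 96 * (N : ℝ) ^ (κ + κ) ≤ (N : ℝ) ^ μ := by
        calc 96 * (N : ℝ) ^ (κ + κ) ≤ (N : ℝ) ^ (μ - 2 * κ) * (N : ℝ) ^ (κ + κ) := by
              gcongr
          _ = (N : ℝ) ^ μ := by rw [pw]; congr 1; ring
      linarith
    exact_mod_cast h3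
  have hcond2 : 4 * M ≤ N := by
    have h3 : (4 : ℝ) * M ≤ N := by
      calc (4 : ℝ) * M ≤ (N : ℝ) ^ (1 - μ) * (N : ℝ) ^ μ := by gcongr
        _ = N := by rw [pw]; simp
    exact_mod_cast h3
  set T : ℕ := M ^ (d + 1) / (4 * J ^ (d + 1)) with hT
  have hJp : 0 < 4 * J ^ (d + 1) := by positivity
  have hcond3 : 4 * T * J ^ (d + 1) ≤ M ^ (d + 1) := by
    have := Nat.div_mul_le_self (M ^ (d + 1)) (4 * J ^ (d + 1))
    rw [← hT] at this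
    calc 4 * T * J ^ (d + 1) = T * (4 * J ^ (d + 1)) := by ring
      _ ≤ _ := this
  have hTlow : (N : ℝ) ^ (2 * l' * (d + 1)) ≤ 4 ^ (d + 2) * ((T : ℝ) + 1) := by
    have h3 : M ^ (d + 1) < (T + 1) * (4 * J ^ (d + 1)) := by
      have := Nat.lt_div_mul_add (a := M ^ (d + 1)) hJp
      rw [← hT] at this
      linarith
    have h4 : (M : ℝ) ^ (d + 1) < (T + 1) * (4 * (J : ℝ) ^ (d + 1)) := by exact_mod_cast h3
    have h5 : ((N : ℝ) ^ μ / 2) ^ (d + 1) ≤ (M : ℝ) ^ (d + 1) := pow_le_pow_left₀ (by positivity) hM2 _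
    have h6 : (J : ℝ) ^ (d + 1) ≤ (2 * (N : ℝ) ^ κ) ^ (d + 1) := pow_le_pow_left₀ (by positivity) hJ2 _
    have h7 : ((N : ℝ) ^ μ / 2) ^ (d + 1) ≤ (T + 1) * (4 * (2 * (N : ℝ) ^ κ) ^ (d + 1)) := by
      refine h5.trans (h4.le.trans ?_)
      gcongr
    rw [div_pow, div_le_iff₀ (by positivity), mul_pow, pwn, pwn] at h7
    have h8 : (N : ℝ) ^ (2 * l' * (d + 1)) * (N : ℝ) ^ (κ * ((d + 1 : ℕ) : ℝ)) =
        (N : ℝ) ^ (μ * ((d + 1 : ℕ) : ℝ)) := by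
      rw [pw, hμ]
      congr 1
      push_cast
      ring
    have h9 : (N : ℝ) ^ (2 * l' * (d + 1)) * (N : ℝ) ^ (κ * ((d + 1 : ℕ) : ℝ)) ≤
        4 ^ (d + 2) * ((T : ℝ) + 1) * (N : ℝ) ^ (κ * ((d + 1 : ℕ) : ℝ)) := by
      rw [h8]
      refine h7.trans (le_of_eq ?_)
      have : (4 : ℝ) ^ (d + 2) = 4 * (2 ^ (d + 1) * 2 ^ (d + 1)) := by
        rw [← mul_pow, pow_succ (4 : ℝ) (d + 1)]
        norm_num
        ring
      rw [this]
      ring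
    exact le_of_mul_le_mul_right h9 (pos _)
  have hThigh : (T : ℝ) ≤ (N : ℝ) ^ (2 * (d + 1) * lam) := by
    have h3 : (4 : ℝ) * T * (J : ℝ) ^ (d + 1) ≤ (M : ℝ) ^ (d + 1) := by exact_mod_cast hcond3
    have h4 : (T : ℝ) * ((N : ℝ) ^ κ) ^ (d + 1) ≤ ((N : ℝ) ^ μ) ^ (d + 1) := by
      calc (T : ℝ) * ((N : ℝ) ^ κ) ^ (d + 1) ≤ T * (J : ℝ) ^ (d + 1) := by gcongr
        _ ≤ 4 * T * (J : ℝ) ^ (d + 1) := by
            have : (0 : ℝ) ≤ T * (J : ℝ) ^ (d + 1) := by positivity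
            linarith
        _ ≤ (M : ℝ) ^ (d + 1) := h3
        _ ≤ _ := pow_le_pow_left₀ (by positivity) hM1 _
    rw [pwn, pwn] at h4
    have h5 : (N : ℝ) ^ (μ * ((d + 1 : ℕ) : ℝ)) = (N : ℝ) ^ (2 * l' * (d + 1)) * (N : ℝ) ^ (κ * ((d + 1 : ℕ) : ℝ)) := by
      rw [pw, hμ]
      congr 1
      push_cast
      ring
    rw [h5] at h4
    have h6 := le_of_mul_le_mul_right h4 (pos _)
    refine h6.trans (mono _ _ ?_)
    rw [hl']
    nlinarith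
  obtain ⟨b, W, hb1, hb2, hb3, hW1, hW2⟩ := core N d J M T hd hJn hcond1 hcond2 hcond3
  refine ⟨b, W, ?_, hb3, ?_, ?_⟩
  · intro n
    by_cases hn : n ∈ Icc N (2 * N)
    · rw [mem_Icc] at hn
      have hn0 : n ≠ 0 := by omega
      have h3 := hb1 n hn0
      have h4 := hdiv n (by omega)
      have h5 : (n.divisors.card : ℝ) ^ 2 ≤ C ^ 2 * 2 ^ ν * (N : ℝ) ^ ν := by
        have h6 : (n : ℝ) ≤ 2 * N := by exact_mod_cast hn.2
        have h7 : (n.divisors.card : ℝ) ≤ C * (2 * (N : ℝ)) ^ (ν / 2) := by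
          refine h4.trans ?_
          gcongr
        calc (n.divisors.card : ℝ) ^ 2 ≤ (C * (2 * (N : ℝ)) ^ (ν / 2)) ^ 2 :=
              pow_le_pow_left₀ (Nat.cast_nonneg _) h7 2
          _ = C ^ 2 * ((2 * (N : ℝ)) ^ (ν / 2)) ^ 2 := by ring
          _ = C ^ 2 * 2 ^ ν * (N : ℝ) ^ ν := by
              rw [← Real.rpow_natCast ((2 * (N : ℝ)) ^ (ν / 2)) 2, ← Real.rpow_mul (by positivity),
                Real.mul_rpow (by norm_num) hN0.le]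
              push_cast
              rw [div_mul_cancel₀ _ (by norm_num : (2 : ℝ) ≠ 0)]
              ring
      have h8 : 2 * (M : ℝ) / (J + 1) ≤ 2 * (N : ℝ) ^ (2 * l') := by
        rw [div_le_iff₀ (by positivity)]
        calc 2 * (M : ℝ) ≤ 2 * (N : ℝ) ^ μ := by gcongr
          _ = 2 * (N : ℝ) ^ (2 * l') * (N : ℝ) ^ κ := by rw [mul_assoc, pw, hμ]
          _ ≤ 2 * (N : ℝ) ^ (2 * l') * (J + 1) := by
              apply mul_le_mul_of_nonneg_left _ (by positivity)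
              linarith
      have h9 : b n ^ 2 ≤ ((N : ℝ) ^ lam) ^ 2 := by
        calc b n ^ 2 ≤ 2 * (N : ℝ) ^ (2 * l') * (C ^ 2 * 2 ^ ν * (N : ℝ) ^ ν) := by
              refine h3.trans ?_
              apply mul_le_mul h8 h5 (by positivity) (by positivity)
          _ = (2 * C ^ 2 * 2 ^ ν) * ((N : ℝ) ^ (2 * l') * (N : ℝ) ^ ν) := by ring
          _ ≤ (N : ℝ) ^ ν * ((N : ℝ) ^ (2 * l') * (N : ℝ) ^ ν) := by
              apply mul_le_mul_of_nonneg_right e3 (by positivity)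
          _ = ((N : ℝ) ^ lam) ^ 2 := by
              rw [pw, pw, pwn, hl']
              congr 1
              push_cast
              ring
      exact abs_le_of_sq_le_sq h9 (pos _).le
    · rw [hb2 n hn, abs_zero]
      exact (pos _).le
  · intro t ht
    obtain ⟨h3, h4⟩ := hW1 t ht
    refine ⟨(by exact_mod_cast h3 : (t : ℝ) ≤ T).trans hThigh, ?_⟩
    have h5 : ((N : ℝ) ^ σ) ^ 2 < ‖∑ n ∈ Icc N (2 * N), (b n : ℂ) * ph t n‖ ^ 2 := by
      refine lt_of_lt_of_le ?_ h4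
      have h6 : ((N : ℝ) ^ σ) ^ 2 = N * (N : ℝ) ^ j0 := by
        rw [pwn, hj0]
        nth_rewrite 2 [← Real.rpow_one (N : ℝ)]
        rw [pw]
        congr 1
        push_cast
        ring
      rw [h6]
      have h7 : 17 * (N : ℝ) ^ j0 ≤ (J : ℝ) + 1 := by
        calc 17 * (N : ℝ) ^ j0 ≤ (N : ℝ) ^ ν * (N : ℝ) ^ j0 := by gcongr
          _ = (N : ℝ) ^ κ := by rw [pw, hκ, add_comm]
          _ ≤ J + 1 := by linarith
      have h8 : 0 < (N : ℝ) ^ j0 := pos _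
      have h9 : 16 * (N : ℝ) ^ j0 < J + 1 := by linarith
      have h10 := mul_lt_mul_of_pos_left h9 hN0
      linarith
    exact lt_of_pow_lt_pow_left₀ 2 (norm_nonneg _) h5
  · -- the number of the large values
    have hprod : ∏ i ∈ range d, ((16 * d : ℝ) * (J : ℝ) ^ (i + 1)) = (16 * d : ℝ) ^ d * (J : ℝ) ^ e := by
      rw [prod_mul_distrib, prod_const, card_range, prod_pow_eq_pow_sum, he]
    rw [hprod] at hW2
    have h3 : (J : ℝ) ^ e ≤ 2 ^ e * (N : ℝ) ^ (κ * ((d : ℝ) * (d + 1) / 2)) := by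
      calc (J : ℝ) ^ e ≤ (2 * (N : ℝ) ^ κ) ^ e := pow_le_pow_left₀ (by positivity) hJ2 _
        _ = _ := by rw [mul_pow, pwn, her]
    have h4 : (N : ℝ) ^ (2 * l' * (d + 1)) ≤ (12 * ((16 * d : ℝ) ^ d * 2 ^ e) * 4 ^ (d + 2)) * W.card *
        (N : ℝ) ^ (κ * ((d : ℝ) * (d + 1) / 2)) := by
      refine hTlow.trans ?_
      calc (4 : ℝ) ^ (d + 2) * ((T : ℝ) + 1) ≤ 4 ^ (d + 2) * (12 * (W.card : ℝ) * ((16 * d : ℝ) ^ d * (J : ℝ) ^ e)) := by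
            gcongr
        _ ≤ 4 ^ (d + 2) * (12 * (W.card : ℝ) * ((16 * d : ℝ) ^ d *
            (2 ^ e * (N : ℝ) ^ (κ * ((d : ℝ) * (d + 1) / 2))))) := by
            gcongr
        _ = _ := by ring
    have h5 : (N : ℝ) ^ w * (N : ℝ) ^ (κ * ((d : ℝ) * (d + 1) / 2)) = (N : ℝ) ^ (2 * l' * (d + 1)) := by
      rw [pw, hw]
      congr 1
      ring
    rw [← h5] at h4
    have h6 := le_of_mul_le_mul_right h4 (pos _)
    have h7 : (N : ℝ) ^ (g / 4) * (N : ℝ) ^ (2 - 2 * σ + g / 4) ≤ (N : ℝ) ^ (g / 4) * W.card := by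
      calc (N : ℝ) ^ (g / 4) * (N : ℝ) ^ (2 - 2 * σ + g / 4) = (N : ℝ) ^ (1 - j0 + g / 2) := by
            rw [pw, hj0]
            congr 1
            ring
        _ ≤ (N : ℝ) ^ w := mono _ _ hw1
        _ ≤ _ := h6
        _ ≤ _ := by gcongr
    exact le_of_mul_le_mul_left h7 (pos _)

end Pool.Agent.Q261.DP
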