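import Mathlib

/-!
Large values of the short sums `∑_{j ≤ J} (M + j)^{it}`: by the pigeonhole principle there are many
integers `t ≤ T` for which all of `t / (2 π i M^i)`, `i ≤ d`, are close to integers.
-/

set_option autoImplicit false

namespace Pool.Agent.Q261.DP

open Finset

/-- the linear phase `t / (2 π (i+1) M^(i+1))` -/
noncomputable def th (M i : ℕ) (t : ℕ) : ℝ := (t : ℝ) / (2 * Real.pi * ((i : ℝ) + 1) * (M : ℝ) ^ (i + 1))

lemma th_sub (M i t u : ℕ) (h : u ≤ t) : th M i (t - u) = th M i t - th M i u := by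
  unfold th
  rw [Nat.cast_sub h]
  ring

/-- pigeonhole -/
theorem pigeon (d J M T : ℕ) (hJ : 1 ≤ J) (K : ℕ) (hK : 1 ≤ K) :
    ∃ W : Finset ℕ, (∀ t ∈ W, t ≤ T ∧ ∃ m : Fin d → ℤ, ∀ i : Fin d,
      |th M i t - m i| * (K * (J : ℝ) ^ ((i : ℕ) + 1)) ≤ 1) ∧
      (T : ℝ) + 1 ≤ (W.card : ℝ) * ∏ i : Fin d, ((K : ℝ) * (J : ℝ) ^ ((i : ℕ) + 1)) := by
  classical
  have hJr : (1 : ℝ) ≤ J := by exact_mod_cast hJ
  have hKr : (1 : ℝ) ≤ K := by exact_mod_cast hK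
  have hc : ∀ i : Fin d, (0 : ℝ) < (K : ℝ) * (J : ℝ) ^ ((i : ℕ) + 1) := fun i => by positivity
  set f : ℕ → (Fin d → ℕ) := fun t i => ⌊(K : ℝ) * (J : ℝ) ^ ((i : ℕ) + 1) * Int.fract (th M i t)⌋₊ with hf
  set tt : Finset (Fin d → ℕ) := Fintype.piFinset (fun i : Fin d => range (K * J ^ ((i : ℕ) + 1))) with htt
  have hmaps : ∀ a ∈ range (T + 1), f a ∈ tt := by
    intro a _
    rw [htt, Fintype.mem_piFinset]
    intro i
    rw [mem_range, hf]
    simp only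
    rw [Nat.floor_lt (mul_nonneg (hc i).le (Int.fract_nonneg _))]
    push_cast
    calc (K : ℝ) * (J : ℝ) ^ ((i : ℕ) + 1) * Int.fract (th M i a)
        < (K : ℝ) * (J : ℝ) ^ ((i : ℕ) + 1) * 1 := by
          apply mul_lt_mul_of_pos_left (Int.fract_lt_one _) (hc i)
      _ = _ := mul_one _
  have hcard : (tt.card : ℝ) = ∏ i : Fin d, ((K : ℝ) * (J : ℝ) ^ ((i : ℕ) + 1)) := by
    rw [htt, Fintype.card_piFinset]
    push_cast
    apply prod_congr rfl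
    intro i _
    rw [card_range]
    push_cast
    rfl
  have hpos : (0 : ℝ) < ∏ i : Fin d, ((K : ℝ) * (J : ℝ) ^ ((i : ℕ) + 1)) := prod_pos fun i _ => hc i
  have hne : tt.Nonempty := by
    rw [← card_pos]
    exact_mod_cast (by rw [hcard]; exact hpos : (0 : ℝ) < (tt.card : ℝ))
  obtain ⟨y, hy, hfib⟩ := exists_le_card_fiber_of_nsmul_le_card_of_maps_to (M := ℝ) hmaps hne
    (b := ((T : ℝ) + 1) / ∏ i : Fin d, ((K : ℝ) * (J : ℝ) ^ ((i : ℕ) + 1))) (by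
      rw [nsmul_eq_mul, hcard, card_range]
      push_cast
      rw [mul_div_cancel₀ _ hpos.ne'])
  set F := (range (T + 1)).filter (fun x => f x = y) with hF
  have hFne : F.Nonempty := by
    rw [← card_pos]
    have : (0 : ℝ) < (F.card : ℝ) := lt_of_lt_of_le (by positivity) hfib
    exact_mod_cast this
  set t0 := F.min' hFne with ht0
  have ht0F : t0 ∈ F := min'_mem _ _
  refine ⟨F.image (fun t => t - t0), ?_, ?_⟩
  · intro t ht
    rw [mem_image] at ht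
    obtain ⟨t1, ht1, rfl⟩ := ht
    have hle : t0 ≤ t1 := min'_le _ _ ht1
    have h1 := mem_filter.1 ht1
    have h0 := mem_filter.1 ht0F
    have hT1 : t1 ≤ T := by have := mem_range.1 h1.1; omega
    refine ⟨by omega, fun i => ⌊th M i t1⌋ - ⌊th M i t0⌋, fun i => ?_⟩
    have hy1 : ⌊(K : ℝ) * (J : ℝ) ^ ((i : ℕ) + 1) * Int.fract (th M i t1)⌋₊ = y i := by
      have := congrFun h1.2 i
      simpa [hf] using this
    have hy0 : ⌊(K : ℝ) * (J : ℝ) ^ ((i : ℕ) + 1) * Int.fract (th M i t0)⌋₊ = y i := by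
      have := congrFun h0.2 i
      simpa [hf] using this
    have e : th M i (t1 - t0) - ((⌊th M i t1⌋ - ⌊th M i t0⌋ : ℤ) : ℝ) =
        Int.fract (th M i t1) - Int.fract (th M i t0) := by
      rw [th_sub M i t1 t0 hle]
      push_cast
      rw [← Int.self_sub_floor, ← Int.self_sub_floor]
      ring
    rw [e]
    have hc' := hc i
    have a1 := Nat.floor_le (mul_nonneg hc'.le (Int.fract_nonneg (th M i t1)))
    have a2 := Nat.lt_floor_add_one ((K : ℝ) * (J : ℝ) ^ ((i : ℕ) + 1) * Int.fract (th M i t1))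
    have b1 := Nat.floor_le (mul_nonneg hc'.le (Int.fract_nonneg (th M i t0)))
    have b2 := Nat.lt_floor_add_one ((K : ℝ) * (J : ℝ) ^ ((i : ℕ) + 1) * Int.fract (th M i t0))
    rw [hy1] at a1 a2
    rw [hy0] at b1 b2
    rw [← abs_of_pos hc', ← abs_mul, abs_le]
    constructor <;> nlinarith
  · rw [card_image_of_injOn]
    · rw [div_le_iff₀ hpos] at hfib
      exact hfib
    · intro a ha b hb hab
      have h1 : t0 ≤ a := min'_le _ _ ha
      have h2 : t0 ≤ b := min'_le _ _ hb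
      simp only at hab
      omega

/-- the logarithm -/
lemma log_taylor (d : ℕ) (x : ℝ) (hx0 : 0 ≤ x) (hx : x ≤ 1 / 2) :
    |Real.log (1 + x) - ∑ i ∈ range d, (-1 : ℝ) ^ i * x ^ (i + 1) / (i + 1)| ≤ 2 * x ^ (d + 1) := by
  have h := Real.abs_log_sub_add_sum_range_le (x := -x) (by rw [abs_neg, abs_of_nonneg hx0]; linarith) d
  rw [abs_neg, abs_of_nonneg hx0, sub_neg_eq_add] at h
  have e : ∑ i ∈ range d, (-x) ^ (i + 1) / ((i : ℝ) + 1) = - ∑ i ∈ range d, (-1 : ℝ) ^ i * x ^ (i + 1) / (i + 1) := by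
    rw [← sum_neg_distrib]
    apply sum_congr rfl
    intro i _
    rw [neg_pow x (i + 1), pow_succ (-1 : ℝ) i]
    ring
  rw [e, neg_add_eq_sub] at h
  refine h.trans ?_
  rw [div_le_iff₀ (by linarith)]
  have : 0 ≤ x ^ (d + 1) := by positivity
  nlinarith

/-- all phases are small: `t log (1 + x)` is close to a multiple of `2 π` for `x = j / M` -/
lemma phase_small (d J M T t j : ℕ) (hJ : 1 ≤ J) (hd : 1 ≤ d) (hM : 2 * J ≤ M) (hj : j ≤ J)
    (hT : 4 * T * J ^ (d + 1) ≤ M ^ (d + 1)) (ht : t ≤ T) (m : Fin d → ℤ)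
    (hm : ∀ i : Fin d, |th M i t - m i| * ((16 * d : ℕ) * (J : ℝ) ^ ((i : ℕ) + 1)) ≤ 1) :
    ∃ k : ℤ, |(t : ℝ) * Real.log (1 + (j : ℝ) / M) - 2 * Real.pi * k| ≤ 1 := by
  have hJr : (1 : ℝ) ≤ J := by exact_mod_cast hJ
  have hdr : (1 : ℝ) ≤ d := by exact_mod_cast hd
  have hMr : 2 * (J : ℝ) ≤ M := by exact_mod_cast hM
  have hM0 : (0 : ℝ) < M := by linarith
  have hjr : (j : ℝ) ≤ J := by exact_mod_cast hj
  have hj0 : (0 : ℝ) ≤ j := Nat.cast_nonneg _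
  have htr : (t : ℝ) ≤ T := by exact_mod_cast ht
  have ht0 : (0 : ℝ) ≤ t := Nat.cast_nonneg _
  have hpi := Real.pi_pos
  have hpi4 : Real.pi < 3.15 := Real.pi_lt_d2
  set x : ℝ := (j : ℝ) / M with hx
  have hx0 : 0 ≤ x := by positivity
  have hx1 : x ≤ 1 / 2 := by
    rw [hx, div_le_iff₀ hM0]
    linarith
  have hlog := log_taylor d x hx0 hx1
  refine ⟨∑ i : Fin d, (-1) ^ (i : ℕ) * (j : ℤ) ^ ((i : ℕ) + 1) * m i, ?_⟩
  -- the main terms
  have hmain : (t : ℝ) * ∑ i ∈ range d, (-1 : ℝ) ^ i * x ^ (i + 1) / (i + 1) =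
      2 * Real.pi * ∑ i : Fin d, (-1 : ℝ) ^ (i : ℕ) * (j : ℝ) ^ ((i : ℕ) + 1) * th M i t := by
    rw [← Fin.sum_univ_eq_sum_range (fun i => (-1 : ℝ) ^ i * x ^ (i + 1) / (i + 1)), mul_sum, mul_sum]
    apply sum_congr rfl
    intro i _
    unfold th
    rw [hx, div_pow]
    have : (0 : ℝ) < ((i : ℕ) : ℝ) + 1 := by positivity
    field_simp
  have hdiff : |(t : ℝ) * Real.log (1 + x) - (t : ℝ) * ∑ i ∈ range d, (-1 : ℝ) ^ i * x ^ (i + 1) / (i + 1)| ≤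
      1 / 2 := by
    rw [← mul_sub, abs_mul, abs_of_nonneg ht0]
    have h1 : x ^ (d + 1) ≤ ((J : ℝ) / M) ^ (d + 1) := by
      apply pow_le_pow_left₀ hx0
      rw [hx]
      gcongr
    have h2 : 4 * (T : ℝ) * (J : ℝ) ^ (d + 1) ≤ (M : ℝ) ^ (d + 1) := by exact_mod_cast hT
    have h3 : (T : ℝ) * (2 * ((J : ℝ) / M) ^ (d + 1)) ≤ 1 / 2 := by
      rw [div_pow]
      have h4 : (T : ℝ) * (2 * ((J : ℝ) ^ (d + 1) / (M : ℝ) ^ (d + 1))) =
          (4 * T * (J : ℝ) ^ (d + 1)) / (2 * (M : ℝ) ^ (d + 1)) := by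
        field_simp
        ring
      rw [h4, div_le_iff₀ (by positivity)]
      linarith
    calc (t : ℝ) * |Real.log (1 + x) - ∑ i ∈ range d, (-1 : ℝ) ^ i * x ^ (i + 1) / (i + 1)|
        ≤ T * (2 * ((J : ℝ) / M) ^ (d + 1)) := by
          apply mul_le_mul htr (hlog.trans (by linarith)) (abs_nonneg _) (by positivity)
      _ ≤ 1 / 2 := h3
  have hfr : |2 * Real.pi * ∑ i : Fin d, (-1 : ℝ) ^ (i : ℕ) * (j : ℝ) ^ ((i : ℕ) + 1) * th M i t -
      2 * Real.pi * ((∑ i : Fin d, (-1) ^ (i : ℕ) * (j : ℤ) ^ ((i : ℕ) + 1) * m i : ℤ) : ℝ)| ≤ 1 / 2 := by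
    push_cast
    rw [← mul_sub, ← sum_sub_distrib, abs_mul, abs_of_pos (by positivity)]
    have h1 : |∑ i : Fin d, ((-1 : ℝ) ^ (i : ℕ) * (j : ℝ) ^ ((i : ℕ) + 1) * th M i t -
        (-1 : ℝ) ^ (i : ℕ) * (j : ℝ) ^ ((i : ℕ) + 1) * m i)| ≤ 1 / 16 := by
      calc _ ≤ ∑ i : Fin d, |((-1 : ℝ) ^ (i : ℕ) * (j : ℝ) ^ ((i : ℕ) + 1) * th M i t -
              (-1 : ℝ) ^ (i : ℕ) * (j : ℝ) ^ ((i : ℕ) + 1) * m i)| := abs_sum_le_sum_abs _ _
        _ ≤ ∑ i : Fin d, 1 / (16 * d : ℝ) := by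
            apply sum_le_sum
            intro i _
            rw [← mul_sub, abs_mul, abs_mul, abs_pow, abs_neg, abs_one, one_pow, one_mul,
              abs_of_nonneg (by positivity)]
            have h2 := hm i
            push_cast at h2
            have h3 : (j : ℝ) ^ ((i : ℕ) + 1) ≤ (J : ℝ) ^ ((i : ℕ) + 1) := pow_le_pow_left₀ hj0 hjr _
            rw [le_div_iff₀ (by positivity)]
            have h4 : 0 ≤ |th M i t - m i| := abs_nonneg _
            calc (j : ℝ) ^ ((i : ℕ) + 1) * |th M i t - m i| * (16 * d)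
                ≤ (J : ℝ) ^ ((i : ℕ) + 1) * |th M i t - m i| * (16 * d) := by gcongr
              _ = |th M i t - m i| * (16 * d * (J : ℝ) ^ ((i : ℕ) + 1)) := by ring
              _ ≤ 1 := h2
        _ = 1 / 16 := by
            rw [sum_const, card_univ, Fintype.card_fin, nsmul_eq_mul]
            field_simp
    calc 2 * Real.pi * _ ≤ 2 * Real.pi * (1 / 16) := by gcongr
      _ ≤ 1 / 2 := by linarith
  rw [hmain] at hdiff
  calc _ ≤ |(t : ℝ) * Real.log (1 + x) -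
        2 * Real.pi * ∑ i : Fin d, (-1 : ℝ) ^ (i : ℕ) * (j : ℝ) ^ ((i : ℕ) + 1) * th M i t| +
        |2 * Real.pi * ∑ i : Fin d, (-1 : ℝ) ^ (i : ℕ) * (j : ℝ) ^ ((i : ℕ) + 1) * th M i t -
      2 * Real.pi * ((∑ i : Fin d, (-1) ^ (i : ℕ) * (j : ℤ) ^ ((i : ℕ) + 1) * m i : ℤ) : ℝ)| :=
        abs_sub_le _ _ _
    _ ≤ 1 / 2 + 1 / 2 := add_le_add hdiff hfr
    _ = 1 := by norm_num

/-- the function `n^{it}` -/
noncomputable def ph (t : ℝ) (n : ℕ) : ℂ := Complex.exp (((t * Real.log n : ℝ) : ℂ) * Complex.I)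

lemma ph_norm (t : ℝ) (n : ℕ) : ‖ph t n‖ = 1 := by
  unfold ph
  rw [Complex.norm_exp_ofReal_mul_I]

lemma ph_mul (t : ℝ) (m n : ℕ) (hm : m ≠ 0) (hn : n ≠ 0) : ph t (m * n) = ph t m * ph t n := by
  unfold ph
  rw [← Complex.exp_add]
  congr 1
  rw [Nat.cast_mul, Real.log_mul (by exact_mod_cast hm) (by exact_mod_cast hn)]
  push_cast
  ring

/-- lower bound for the short sum -/
lemma short_sum (d J M T t : ℕ) (hJ : 1 ≤ J) (hd : 1 ≤ d) (hM : 2 * J ≤ M)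
    (hT : 4 * T * J ^ (d + 1) ≤ M ^ (d + 1)) (ht : t ≤ T) (m : Fin d → ℤ)
    (hm : ∀ i : Fin d, |th M i t - m i| * ((16 * d : ℕ) * (J : ℝ) ^ ((i : ℕ) + 1)) ≤ 1) :
    ((J : ℝ) + 1) / 2 ≤ ‖∑ j ∈ range (J + 1), ph t (M + j)‖ := by
  have hM0 : (0 : ℝ) < M := by exact_mod_cast (by omega : 0 < M)
  have h1 : ‖∑ j ∈ range (J + 1), ph t (M + j)‖ =
      ‖∑ j ∈ range (J + 1), Complex.exp ((((t : ℝ) * Real.log (1 + (j : ℝ) / M) : ℝ) : ℂ) * Complex.I)‖ := by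
    have : ∑ j ∈ range (J + 1), ph t (M + j) = ph t M * ∑ j ∈ range (J + 1),
        Complex.exp ((((t : ℝ) * Real.log (1 + (j : ℝ) / M) : ℝ) : ℂ) * Complex.I) := by
      rw [mul_sum]
      apply sum_congr rfl
      intro j _
      unfold ph
      rw [← Complex.exp_add]
      congr 1
      have e : (((M + j : ℕ) : ℝ)) = M * (1 + (j : ℝ) / M) := by
        push_cast
        field_simp
      rw [e, Real.log_mul hM0.ne' (by positivity)]
      push_cast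
      ring
    rw [this, norm_mul, ph_norm, one_mul]
  rw [h1]
  refine le_trans ?_ (Complex.re_le_norm _)
  rw [Complex.re_sum]
  have h2 : ∀ j ∈ range (J + 1), (1 / 2 : ℝ) ≤
      (Complex.exp ((((t : ℝ) * Real.log (1 + (j : ℝ) / M) : ℝ) : ℂ) * Complex.I)).re := by
    intro j hj
    rw [Complex.exp_ofReal_mul_I_re]
    obtain ⟨k, hk⟩ := phase_small d J M T t j hJ hd hM (by have := mem_range.1 hj; omega) hT ht m hm
    have e : Real.cos ((t : ℝ) * Real.log (1 + (j : ℝ) / M)) =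
        Real.cos ((t : ℝ) * Real.log (1 + (j : ℝ) / M) - 2 * Real.pi * k) := by
      have := Real.cos_sub_int_mul_two_pi ((t : ℝ) * Real.log (1 + (j : ℝ) / M)) k
      rw [← this]
      congr 1
      ring
    rw [e]
    have h3 := Real.one_sub_sq_div_two_le_cos (x := (t : ℝ) * Real.log (1 + (j : ℝ) / M) - 2 * Real.pi * k)
    have h4 : ((t : ℝ) * Real.log (1 + (j : ℝ) / M) - 2 * Real.pi * k) ^ 2 ≤ 1 := by
      rw [← sq_abs]
      exact pow_le_one₀ (abs_nonneg _) hk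
    linarith
  calc ((J : ℝ) + 1) / 2 = ∑ j ∈ range (J + 1), (1 / 2 : ℝ) := by
        rw [sum_const, card_range, nsmul_eq_mul]
        push_cast
        ring
    _ ≤ _ := sum_le_sum h2

/-- the set of the large values of the short sum -/
theorem short_large (d J M T : ℕ) (hJ : 1 ≤ J) (hd : 1 ≤ d) (hM : 2 * J ≤ M)
    (hT : 4 * T * J ^ (d + 1) ≤ M ^ (d + 1)) :
    ∃ W : Finset ℕ, (∀ t ∈ W, t ≤ T ∧ ((J : ℝ) + 1) / 2 ≤ ‖∑ j ∈ range (J + 1), ph t (M + j)‖) ∧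
      (T : ℝ) + 1 ≤ (W.card : ℝ) * ∏ i ∈ range d, ((16 * d : ℝ) * (J : ℝ) ^ (i + 1)) := by
  obtain ⟨W, hW1, hW2⟩ := pigeon d J M T hJ (16 * d) (by omega)
  refine ⟨W, fun t ht => ⟨(hW1 t ht).1, ?_⟩, ?_⟩
  · obtain ⟨m, hm⟩ := (hW1 t ht).2
    exact short_sum d J M T t hJ hd hM hT (hW1 t ht).1 m hm
  · rw [← Fin.prod_univ_eq_prod_range (fun i => (16 * d : ℝ) * (J : ℝ) ^ (i + 1))]
    refine hW2.trans (le_of_eq ?_)
    congr 1
    apply prod_congr rfl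
    intro i _
    push_cast
    rfl

end Pool.Agent.Q261.DP
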